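import Pool.Agent.W458.MF.NStm
import Pool.Agent.W521.Criterion

/-!
# The patterns imply that the relations are balanced (MF-NT)
-/

set_option autoImplicit false

open Polynomial NumberField

namespace Pool.Agent.W338.MF

open Pool.Agent.W458.MF Pool.Agent.W521.Frob Pool.Agent.W521.Criterion

/-- a number field which contains the roots of a monic polynomial -/
theorem exists_field' (P₀ : ℤ[X]) (hm : P₀.Monic) :
    ∃ (L : Type) (_ : Field L) (_ : NumberField L) (_ : IsGalois ℚ L) (j : L →+* ℂ),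
      ∀ z : ℂ, aeval z P₀ = 0 → ∃ x : L, j x = z := by
  let P : ℚ[X] := P₀.map (Int.castRingHom ℚ)
  have hP : P.Monic := hm.map _
  have hN : Normal ℚ P.SplittingField := normal_sf P
  have hL : NumberField P.SplittingField := ⟨⟩
  have hG : IsGalois ℚ P.SplittingField := ⟨⟩
  let j : P.SplittingField →ₐ[ℚ] ℂ := IsAlgClosed.lift
  refine ⟨P.SplittingField, inferInstance, hL, hG, j, ?_⟩
  intro z hz
  have h1 : ((P.map (algebraMap ℚ P.SplittingField)).map
      (j : P.SplittingField →+* ℂ)).IsRoot z := by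
    have e1 : (P.map (algebraMap ℚ P.SplittingField)).map (j : P.SplittingField →+* ℂ) =
        P₀.map (algebraMap ℤ ℂ) := by
      rw [Polynomial.map_map, Polynomial.map_map]
      congr 1
      exact RingHom.ext_int _ _
    rw [e1, IsRoot.def, eval_map]
    exact hz
  have h2 := (splits_sf P).mem_range_of_isRoot
    ((hP.map (algebraMap ℚ P.SplittingField)).ne_zero) h1
  exact h2

lemma luc_id {A : Type*} [CommRing A] (q : ℕ) (a b : A) (hab : a * b = q) (n : ℕ) :
    (a - b) * aeval (a + b) (luc q n) = a ^ n - b ^ n := by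
  induction n using Nat.strong_induction_on with
  | _ n ih =>
    match n with
    | 0 => simp [luc]
    | 1 => simp [luc]
    | n + 2 =>
      have h1 := ih (n + 1) (by omega)
      have h0 := ih n (by omega)
      have e : aeval (a + b) (luc q (n + 2)) =
          (a + b) * aeval (a + b) (luc q (n + 1)) - q * aeval (a + b) (luc q n) := by
        simp only [luc, map_sub, map_mul, aeval_X, aeval_C]
        rw [eq_intCast (algebraMap ℤ A), Int.cast_natCast]
      rw [e]
      have e2 : (a - b) * ((a + b) * aeval (a + b) (luc q (n + 1)) -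
          (q : A) * aeval (a + b) (luc q n)) =
          (a + b) * ((a - b) * aeval (a + b) (luc q (n + 1))) -
            (q : A) * ((a - b) * aeval (a + b) (luc q n)) := by ring
      rw [e2, h1, h0, ← hab]
      ring

lemma aeval_down {L : Type} [Field L] (j : L →+* ℂ) (p : ℤ[X]) (x : L)
    (hx : aeval (j x) p = 0) : aeval x p = 0 := by
  apply j.injective
  have h2 := Polynomial.hom_eval₂ p (algebraMap ℤ L) j x
  rw [RingHom.ext_int (j.comp (algebraMap ℤ L)) (algebraMap ℤ ℂ)] at h2
  rw [map_zero]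
  exact h2.trans hx

lemma aeval_up {L : Type} [Field L] (j : L →+* ℂ) (p : ℤ[X]) (x : L)
    (hx : aeval x p = 0) : aeval (j x) p = 0 := by
  have h2 := Polynomial.hom_eval₂ p (algebraMap ℤ L) j x
  have h3 : eval₂ (algebraMap ℤ L) x p = 0 := hx
  rw [h3, map_zero, RingHom.ext_int (j.comp (algebraMap ℤ L)) (algebraMap ℤ ℂ)] at h2
  exact h2.symm

/-- an automorphism which exchanges `α` and `q / α` and fixes all other roots -/
def Flp {I : Type} (q : I → ℕ) (h : I → ℤ[X]) (R : ℤ[X]) {L : Type} [Field L] [Algebra ℚ L]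
    (i : I) (α : L) : Prop :=
  ∃ σ : L ≃ₐ[ℚ] L, σ α = q i / α ∧ α ≠ q i / α ∧
    (∀ β : L, aeval β (weil (q i) (h i)) = 0 → β ≠ α → β ≠ q i / α → σ β = β) ∧
    (∀ i', i' ≠ i → ∀ β : L, aeval β (weil (q i') (h i')) = 0 → σ β = β) ∧
    ∀ β : L, aeval β R = 0 → σ β = β

section

variable {I : Type} {q : I → ℕ} {h : I → ℤ[X]} {R : ℤ[X]} (hq : ∀ i, q i ≠ 0)
  (hm : ∀ i, (h i).Monic)
  (L : Type) [Field L] [NumberField L] [IsGalois ℚ L] (j : L →+* ℂ)
  (hL : ∀ i, ∀ z : ℂ, aeval z (weil (q i) (h i)) = 0 → ∃ x : L, j x = z)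

include hq hm hL

theorem flp_conj (i : I) (hirr : Irreducible ((h i).map (Int.castRingHom ℚ)))
    (α₀ : L) (hα₀ : aeval α₀ (weil (q i) (h i)) = 0) (hfl : Flp q h R i α₀) (α : L)
    (hα : aeval α (weil (q i) (h i)) = 0) : Flp q h R i α := by
  obtain ⟨σ, h1, h2, h3, h3', h3''⟩ := hfl
  obtain ⟨τ, hτ⟩ := exists_tau (I := Unit) (hq i) (fun _ => hm i) L j (fun _ => hL i) ()
    hirr α₀ α hα₀ hα
  have hqL : (q i : L) ≠ 0 := by exact_mod_cast hq i
  have hα₀0 := root_ne_zero (hq i) (hm i) hα₀
  have hα0 := root_ne_zero (hq i) (hm i) hα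
  have hτs : ∀ x, τ (τ.symm x) = x := fun x => τ.apply_symm_apply x
  have hpre : τ.symm α = α₀ ∨ τ.symm α = q i / α₀ := by
    rcases hτ with e | e
    · left
      rw [← e, τ.symm_apply_apply]
    · right
      apply τ.injective
      rw [τ.apply_symm_apply, map_div₀, map_natCast, e, div_div_cancel₀ hqL]
  have hσ' : σ (q i / α₀) = α₀ := by
    rw [map_div₀, map_natCast, h1, div_div_cancel₀ hqL]
  refine ⟨(τ.symm.trans σ).trans τ, ?_, ?_, ?_, ?_, ?_⟩
  · rw [AlgEquiv.trans_apply, AlgEquiv.trans_apply]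
    rcases hpre with e | e
    · rw [e, h1, map_div₀, map_natCast]
      have h4 : τ α₀ = α := by rw [← e, hτs]
      rw [h4]
    · rw [e, hσ']
      have h4 : τ (q i / α₀) = α := by rw [← e, hτs]
      rw [map_div₀, map_natCast] at h4
      rw [← h4, div_div_cancel₀ hqL]
  · intro h4
    have h5 : τ.symm α = q i / τ.symm α := by
      conv_lhs => rw [h4]
      rw [map_div₀, map_natCast]
    rcases hpre with e | e
    · rw [e] at h5
      exact h2 h5
    · rw [e, div_div_cancel₀ hqL] at h5
      exact h2 h5.symm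
  · intro β hβ hne1 hne2
    have h4 : σ (τ.symm β) = τ.symm β := by
      refine h3 _ (aeval_alg L _ _ _ hβ) ?_ ?_
      · intro e
        rcases hpre with e' | e'
        · exact hne1 (τ.symm.injective (e.trans e'.symm))
        · apply hne2
          apply τ.symm.injective
          rw [e, map_div₀, map_natCast, e', div_div_cancel₀ hqL]
      · intro e
        rcases hpre with e' | e'
        · apply hne2
          apply τ.symm.injective
          rw [e, map_div₀, map_natCast, e']
        · exact hne1 (τ.symm.injective (e.trans e'.symm))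
    rw [AlgEquiv.trans_apply, AlgEquiv.trans_apply, h4, hτs]
  · intro i' hi' β hβ
    have h4 : σ (τ.symm β) = τ.symm β := h3' i' hi' _ (aeval_alg L _ _ _ hβ)
    rw [AlgEquiv.trans_apply, AlgEquiv.trans_apply, h4, hτs]
  · intro β hβ
    have h4 : σ (τ.symm β) = τ.symm β := h3'' _ (aeval_alg L _ _ _ hβ)
    rw [AlgEquiv.trans_apply, AlgEquiv.trans_apply, h4, hτs]

/-- no root of unity -/
theorem no_rou (i : I) (hirr : Irreducible ((h i).map (Int.castRingHom ℚ)))
    {N : ℕ} (huni : ∀ z : ℂ, (∃ t : ℕ, 0 < t ∧ z ^ t = 1) →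
      (∃ P : ℚ[X], P ≠ 0 ∧ P.natDegree ≤ 2 * (h i).natDegree ∧ aeval z P = 0) → z ^ N = 1)
    (α₀ : L) (hα₀ : aeval α₀ (weil (q i) (h i)) = 0) (hne : α₀ ≠ q i / α₀)
    (hluc : aeval (α₀ + (q i : L) / α₀) (luc (q i) N) ≠ 0)
    (α : L) (hα : aeval α (weil (q i) (h i)) = 0) (t : ℕ) (ht : 0 < t)
    (hαt : (α ^ 2) ^ t = (q i : L) ^ t) : False := by
  have hqL : (q i : L) ≠ 0 := by exact_mod_cast hq i
  have hα₀0 := root_ne_zero (hq i) (hm i) hα₀
  -- the same relation for `α₀`
  have hrel : (α₀ ^ 2) ^ t = (q i : L) ^ t := by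
    obtain ⟨τ, hτ⟩ := exists_tau (I := Unit) (hq i) (fun _ => hm i) L j (fun _ => hL i) ()
      hirr α α₀ hα hα₀
    have h1 := congrArg τ hαt
    rw [map_pow, map_pow, map_pow, map_natCast] at h1
    rcases hτ with e | e
    · rwa [e] at h1
    · rw [e, div_pow, div_pow, div_eq_iff (pow_ne_zero _ (pow_ne_zero _ hα₀0))] at h1
      have h2 : (q i : L) ^ t * (α₀ ^ 2) ^ t = (q i : L) ^ t * (q i : L) ^ t := by
        rw [← h1]
        ring
      exact mul_left_cancel₀ (pow_ne_zero _ hqL) h2
  set ζ : L := α₀ ^ 2 / q i with hζ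
  have hζt : ζ ^ t = 1 := by
    rw [hζ, div_pow, hrel, div_self (pow_ne_zero _ hqL)]
  -- the degree of `ζ`
  have hint : IsIntegral ℚ α₀ := Algebra.IsIntegral.isIntegral α₀
  have hdeg : (minpoly ℚ ζ).natDegree ≤ 2 * (h i).natDegree := by
    have hmem : ζ ∈ IntermediateField.adjoin ℚ {α₀} := by
      have h1 : α₀ ∈ IntermediateField.adjoin ℚ {α₀} :=
        IntermediateField.mem_adjoin_simple_self ℚ α₀
      rw [hζ]
      exact div_mem (pow_mem h1 2) (natCast_mem _ _)
    have h2 : (minpoly ℚ (⟨ζ, hmem⟩ : IntermediateField.adjoin ℚ {α₀})).natDegree ≤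
        Module.finrank ℚ (IntermediateField.adjoin ℚ {α₀}) := minpoly.natDegree_le _
    have h3 : minpoly ℚ (⟨ζ, hmem⟩ : IntermediateField.adjoin ℚ {α₀}) = minpoly ℚ ζ :=
      (minpoly.algebraMap_eq (algebraMap (IntermediateField.adjoin ℚ {α₀}) L).injective
        (⟨ζ, hmem⟩ : IntermediateField.adjoin ℚ {α₀})).symm
    rw [h3, IntermediateField.adjoin.finrank hint] at h2
    refine h2.trans ?_
    have h4 : minpoly ℚ α₀ ∣ (weil (q i) (h i)).map (Int.castRingHom ℚ) := by
      apply minpoly.dvd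
      rw [aeval_def, eval₂_map, RingHom.ext_int ((algebraMap ℚ L).comp _) (algebraMap ℤ L)]
      exact hα₀
    have h5 := natDegree_le_of_dvd h4 ((weil_monic (q i) (hm i)).map _).ne_zero
    rwa [(weil_monic (q i) (hm i)).natDegree_map, weil_natDegree (q i) (hm i)] at h5
  have hζN : ζ ^ N = 1 := by
    apply j.injective
    rw [map_pow, map_one]
    refine huni (j ζ) ⟨t, ht, by rw [← map_pow, hζt, map_one]⟩
      ⟨minpoly ℚ ζ, minpoly.ne_zero (Algebra.IsIntegral.isIntegral ζ), hdeg, ?_⟩
    have h1 := Polynomial.hom_eval₂ (minpoly ℚ ζ) (algebraMap ℚ L) j ζ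
    have h2 : eval₂ (algebraMap ℚ L) ζ (minpoly ℚ ζ) = 0 := minpoly.aeval ℚ ζ
    rw [h2, map_zero, Subsingleton.elim (j.comp (algebraMap ℚ L)) (algebraMap ℚ ℂ)] at h1
    exact h1.symm
  have hβ : α₀ * ((q i : L) / α₀) = ((q i : ℕ) : L) := by field_simp
  have hpow : α₀ ^ N = ((q i : L) / α₀) ^ N := by
    have h1 : (α₀ ^ 2) ^ N = (q i : L) ^ N := by
      rw [hζ, div_pow, div_eq_iff (pow_ne_zero _ hqL), one_mul] at hζN
      exact hζN
    rw [div_pow, ← h1, eq_div_iff (pow_ne_zero _ hα₀0), ← pow_mul, ← pow_add]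
    congr 1
    ring
  have hid := luc_id (q i) α₀ ((q i : L) / α₀) hβ N
  rw [hpow, sub_self] at hid
  rcases mul_eq_zero.1 hid with h1 | h1
  · exact hne (sub_eq_zero.1 h1)
  · exact hluc h1

end

lemma prod_two {K L : Type} [BEq K] [LawfulBEq K] [Field L] (f : K → L) (a b : K) (hab : a ≠ b)
    (r : L) (hr : r ≠ 0) (ha : f a = r) (hb : f b = r⁻¹) (l : List K)
    (hl : ∀ x ∈ l, x ≠ a → x ≠ b → f x = 1) :
    (l.map f).prod * r ^ l.count b = r ^ l.count a := by
  classical
  induction l with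
  | nil => simp
  | cons x l ih =>
    have ih' := ih fun y hy => hl y (List.mem_cons_of_mem x hy)
    rw [List.map_cons, List.prod_cons, List.count_cons, List.count_cons]
    by_cases h1 : x = a
    · subst h1
      have h2 : ¬ (x == b) = true := by rw [beq_iff_eq]; exact hab
      rw [ha, if_neg h2, add_zero, if_pos (beq_self_eq_true x), pow_add, pow_one, ← ih']
      ring
    · by_cases h2 : x = b
      · subst h2
        have h3 : ¬ (x == a) = true := by rw [beq_iff_eq]; exact h1
        rw [hb, if_neg h3, add_zero, if_pos (beq_self_eq_true x), pow_add, pow_one, ← ih']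
        field_simp
      · have h3 : ¬ (x == a) = true := by rw [beq_iff_eq]; exact h1
        have h4 : ¬ (x == b) = true := by rw [beq_iff_eq]; exact h2
        rw [hl x List.mem_cons_self h1 h2, if_neg h3, if_neg h4, add_zero, add_zero, ← ih', one_mul]

lemma count_transfer {A B : Type} [BEq A] [LawfulBEq A] [BEq B] [LawfulBEq B] (f : A → B)
    (hf : Function.Injective f) (l : List A) (a b : A) (h : l.count a = l.count b) :
    (l.map f).count (f a) = (l.map f).count (f b) := by
  rw [List.count_map_of_injective l f hf, List.count_map_of_injective l f hf, h]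

/-- the relations are balanced -/
theorem bal {I : Type} {q : I → ℕ} {h : I → ℤ[X]} {R : ℤ[X]} (hq : ∀ i, q i ≠ 0)
    (hm : ∀ i, (h i).Monic)
    (L : Type) [Field L] [NumberField L] [IsGalois ℚ L] (j : L →+* ℂ)
    (hL : ∀ i, ∀ z : ℂ, aeval z (weil (q i) (h i)) = 0 → ∃ x : L, j x = z)
    (hLR : ∀ z : ℂ, aeval z R = 0 → ∃ x : L, j x = z)
    (key : ∀ i, ∀ α : L, aeval α (weil (q i) (h i)) = 0 → Flp q h R i α ∧
      ∀ t : ℕ, 0 < t → (α ^ 2) ^ t ≠ (q i : L) ^ t)
    (l : List (I × ℂ)) (hl : ∀ x ∈ l, aeval x.2 (weil (q x.1) (h x.1)) = 0) (t : ℕ) (ht : 0 < t)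
    (ν : ℂ) (hν : ν ∈ Submonoid.closure {z : ℂ | aeval z R = 0}) (c : ℕ) (hc : 0 < c)
    (hprod : (l.map fun x => x.2 ^ t).prod * ν = (c : ℂ)) (i : I) (z : ℂ)
    [BEq (I × ℂ)] [LawfulBEq (I × ℂ)] : l.count (i, z) = l.count (i, (q i : ℂ) / z) := by
  classical
  by_cases hz0 : z = 0
  · rw [hz0, div_zero]
  have hqC : ((q i : ℕ) : ℂ) ≠ 0 := by exact_mod_cast hq i
  have hqL : ((q i : ℕ) : L) ≠ 0 := by exact_mod_cast hq i
  by_cases hz : aeval z (weil (q i) (h i)) = 0
  swap
  · have h1 : (i, z) ∉ l := by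
      intro h1
      have h3 : aeval z (weil (q i) (h i)) = 0 := hl (i, z) h1
      exact hz h3
    have h2 : (i, (q i : ℂ) / z) ∉ l := by
      intro h2
      have h3 : aeval ((q i : ℂ) / z) (weil (q i) (h i)) = 0 := hl (i, (q i : ℂ) / z) h2
      have h4 := root_conj (hq i) (hm i) h3
      rw [div_div_cancel₀ hqC] at h4
      exact hz h4
    exact (List.count_eq_zero.2 h1).trans (List.count_eq_zero.2 h2).symm
  -- everything in `L`
  obtain ⟨l', rfl, hl'⟩ : ∃ l' : List (I × L), l'.map (Prod.map id j) = l ∧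
      ∀ x ∈ l', aeval x.2 (weil (q x.1) (h x.1)) = 0 := by
    clear hprod
    induction l with
    | nil => exact ⟨[], rfl, by simp⟩
    | cons a T ih =>
      obtain ⟨T', h1, h2⟩ := ih fun z hz => hl z (List.mem_cons_of_mem a hz)
      have h3 := hl a List.mem_cons_self
      obtain ⟨x, hx⟩ := hL a.1 a.2 h3
      refine ⟨(a.1, x) :: T', ?_, ?_⟩
      · rw [List.map_cons, h1]
        congr 1
        exact Prod.ext rfl hx
      · intro y hy
        rcases List.mem_cons.1 hy with e | e
        · rw [e]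
          exact aeval_down j _ x (by rw [hx]; exact h3)
        · exact h2 y e
  obtain ⟨ν', rfl, hν'⟩ : ∃ ν' : L, j ν' = ν ∧ ν' ∈ Submonoid.closure {x : L | aeval x R = 0} := by
    clear hprod
    induction hν using Submonoid.closure_induction with
    | mem x hx =>
      obtain ⟨y, hy⟩ := hLR x hx
      exact ⟨y, hy, Submonoid.subset_closure (aeval_down j _ y (by rw [hy]; exact hx))⟩
    | one => exact ⟨1, map_one j, one_mem _⟩
    | mul x y _ _ h1 h2 =>
      obtain ⟨a, ha, ha'⟩ := h1
      obtain ⟨b, hb, hb'⟩ := h2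
      exact ⟨a * b, by rw [map_mul, ha, hb], mul_mem ha' hb'⟩
  obtain ⟨α, rfl⟩ := hL i z hz
  have hα : aeval α (weil (q i) (h i)) = 0 := aeval_down j _ α hz
  have hα0 := root_ne_zero (hq i) (hm i) hα
  obtain ⟨⟨σ, s1, s2, s3, s4, s5⟩, hrou⟩ := key i α hα
  have hinj : Function.Injective (Prod.map id j : I × L → I × ℂ) :=
    Function.Injective.prodMap Function.injective_id j.injective
  have hqj : (q i : ℂ) / j α = j (q i / α) := by rw [map_div₀, map_natCast]
  rw [hqj]
  refine count_transfer (Prod.map id j) hinj l' (i, α) (i, (q i : L) / α) ?_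
  set P : L := (l'.map fun x => x.2).prod with hP
  have hPe : P ^ t * ν' = (c : L) := by
    apply j.injective
    have e1 : ∀ k : List (I × L), ((k.map (Prod.map id j)).map fun x : I × ℂ => x.2 ^ t).prod =
        (j (k.map fun x => x.2).prod) ^ t := by
      intro k
      induction k with
      | nil => simp
      | cons a k ih =>
        rw [List.map_cons, List.map_cons, List.prod_cons, ih, List.map_cons, List.prod_cons,
          map_mul, mul_pow]
        rfl
    rw [map_mul, map_pow, map_natCast, ← hprod, hP, e1]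
  have hc0 : ((c : ℕ) : L) ≠ 0 := by
    have : c ≠ 0 := hc.ne'
    exact_mod_cast this
  have hν0 : ν' ≠ 0 := by
    intro h0
    rw [h0, mul_zero] at hPe
    exact hc0 hPe.symm
  have hPt : P ^ t ≠ 0 := by
    intro h0
    rw [h0, zero_mul] at hPe
    exact hc0 hPe.symm
  have hP0 : P ≠ 0 := by
    intro h0
    rw [h0, zero_pow ht.ne'] at hPt
    exact hPt rfl
  have hσν : σ ν' = ν' := by
    have hall : ∀ y ∈ Submonoid.closure {x : L | aeval x R = 0}, σ y = y := by
      intro y hy
      induction hy using Submonoid.closure_induction with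
      | mem x hx => exact s5 x hx
      | one => exact map_one σ
      | mul x y _ _ h1 h2 => rw [map_mul, h1, h2]
    exact hall ν' hν'
  have hσP : (σ P) ^ t = P ^ t := by
    have h1 := congrArg σ hPe
    rw [map_mul, map_pow, hσν, map_natCast, ← hPe] at h1
    exact mul_right_cancel₀ hν0 h1
  set f : I × L → L := fun x => σ x.2 / x.2 with hf
  have hprodf : (l'.map f).prod = σ P / P := by
    have e1 : ∀ k : List (I × L), (k.map f).prod =
        σ (k.map fun x => x.2).prod / (k.map fun x => x.2).prod := by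
      intro k
      induction k with
      | nil => simp
      | cons a k ih =>
        rw [List.map_cons, List.prod_cons, ih, List.map_cons, List.prod_cons, map_mul,
          div_mul_div_comm]
    exact e1 l'
  have hpf1 : ((l'.map f).prod) ^ t = 1 := by
    rw [hprodf, div_pow, hσP, div_self hPt]
  set r : L := (q i : L) / α / α with hr
  have hr0 : r ≠ 0 := div_ne_zero (div_ne_zero hqL hα0) hα0
  have hab : (i, α) ≠ (i, (q i : L) / α) := by
    intro h0
    exact s2 (Prod.ext_iff.1 h0).2
  have htwo := prod_two f (i, α) (i, (q i : L) / α) hab r hr0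
    (by
      simp only [hf, hr]
      rw [s1])
    (by
      simp only [hf, hr]
      rw [map_div₀, map_natCast, s1, div_div_cancel₀ hqL, inv_div]) l' (by
      rintro ⟨i', x⟩ hx h1 h2
      have hx' := hl' _ hx
      have hx0 : x ≠ 0 := root_ne_zero (hq i') (hm i') hx'
      simp only [hf]
      by_cases hi : i' = i
      · subst hi
        rw [s3 x hx' (fun e => h1 (by rw [e])) (fun e => h2 (by rw [e])), div_self hx0]
      · rw [s4 i' hi x hx', div_self hx0])
  have hpow : r ^ (l'.count (i, (q i : L) / α) * t) = r ^ (l'.count (i, α) * t) := by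
    rw [pow_mul, pow_mul, ← htwo, mul_pow, hpf1, one_mul]
  have fin : ∀ A d : ℕ, r ^ ((A + d + 1) * t) = r ^ (A * t) → False := by
    intro A d hk
    have h1 : (A + d + 1) * t = A * t + (d + 1) * t := by ring
    rw [h1, pow_add] at hk
    have h2 : r ^ ((d + 1) * t) = 1 := by
      have h3 : r ^ (A * t) * r ^ ((d + 1) * t) = r ^ (A * t) * 1 := by rw [hk, mul_one]
      exact mul_left_cancel₀ (pow_ne_zero _ hr0) h3
    refine hrou ((d + 1) * t) (by positivity) ?_
    have h3 : r * α ^ 2 = q i := by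
      rw [hr]
      field_simp
    have h4 : (r * α ^ 2) ^ ((d + 1) * t) = (q i : L) ^ ((d + 1) * t) := by rw [h3]
    rwa [mul_pow, h2, one_mul] at h4
  by_contra hne
  rcases lt_or_gt_of_ne hne with hlt | hlt
  · obtain ⟨d, hd⟩ := Nat.exists_eq_add_of_lt hlt
    rw [hd] at hpow
    exact fin _ d hpow
  · obtain ⟨d, hd⟩ := Nat.exists_eq_add_of_lt hlt
    rw [hd] at hpow
    exact fin _ d hpow.symm

/-- separability -/
theorem sep {q : ℕ} (hq : q ≠ 0) {h : ℤ[X]} (hm : h.Monic)
    (hirr : Irreducible (h.map (Int.castRingHom ℚ)))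
    (L : Type) [Field L] [NumberField L] [IsGalois ℚ L]
    (hs : (h.map (algebraMap ℤ L)).Splits)
    (hquad : ∀ θ : L, aeval θ h = 0 → ∃ α : L, α ^ 2 + q = θ * α)
    (hne : ∀ α : L, aeval α (weil q h) = 0 → α ≠ q / α) :
    ((weil q h).map (Int.castRingHom ℚ)).Separable := by
  classical
  have hqL : ((q : ℕ) : L) ≠ 0 := by exact_mod_cast hq
  have e1 : ∀ p : ℤ[X], (p.map (Int.castRingHom ℚ)).map (algebraMap ℚ L) = p.map (algebraMap ℤ L) := by
    intro p
    rw [Polynomial.map_map]
    congr 1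
    exact RingHom.ext_int _ _
  set W := (weil q h).map (algebraMap ℤ L) with hW
  have hWm : W.Monic := (weil_monic q hm).map _
  have hWd : W.natDegree = 2 * h.natDegree := by
    rw [hW, (weil_monic q hm).natDegree_map, weil_natDegree q hm]
  have hHm : (h.map (algebraMap ℤ L)).Monic := hm.map _
  have hHsep : (h.map (algebraMap ℤ L)).Separable := by
    rw [← e1, separable_map]
    exact hirr.separable
  have hHnd : (h.map (algebraMap ℤ L)).roots.Nodup :=
    (nodup_roots_iff_of_splits hHm.ne_zero hs).2 hHsep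
  have hHc : (h.map (algebraMap ℤ L)).roots.toFinset.card = h.natDegree := by
    rw [Multiset.toFinset_card_of_nodup hHnd, splits_iff_card_roots.1 hs, hm.natDegree_map]
  have hmemH : ∀ x : L, x ∈ (h.map (algebraMap ℤ L)).roots.toFinset ↔ aeval x h = 0 := by
    intro x
    rw [Multiset.mem_toFinset, mem_roots hHm.ne_zero, IsRoot.def, eval_map]
    rfl
  have hmemW : ∀ x : L, x ∈ W.roots.toFinset ↔ aeval x (weil q h) = 0 := by
    intro x
    rw [Multiset.mem_toFinset, mem_roots hWm.ne_zero, IsRoot.def, hW, eval_map]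
    rfl
  have hcount : 2 * (h.map (algebraMap ℤ L)).roots.toFinset.card ≤ W.roots.toFinset.card := by
    refine Finset.mul_card_image_le_card_of_maps_to (f := fun x : L => x + q / x) ?_ 2 ?_
    · intro x hx
      rw [hmemW] at hx
      rw [hmemH]
      exact ((root_iff hq hm x).1 hx).2
    · intro θ hθ
      rw [hmemH] at hθ
      obtain ⟨α, hα⟩ := hquad θ hθ
      have hα0 : α ≠ 0 := by
        rintro rfl
        rw [zero_pow two_ne_zero, zero_add, mul_zero] at hα
        exact hqL hα
      have hαw : aeval α (weil q h) = 0 := by rw [aeval_weil q h α θ hα, hθ, mul_zero]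
      have hθe : α + q / α = θ := by
        apply mul_right_cancel₀ hα0
        rw [← hα]
        field_simp
      have hsub : ({α, (q : L) / α} : Finset L) ⊆
          W.roots.toFinset.filter (fun x => x + q / x = θ) := by
        intro x hx
        rw [Finset.mem_insert, Finset.mem_singleton] at hx
        rw [Finset.mem_filter, hmemW]
        rcases hx with rfl | rfl
        · exact ⟨hαw, hθe⟩
        · refine ⟨root_conj hq hm hαw, ?_⟩
          rw [div_div_cancel₀ hqL, add_comm]
          exact hθe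
      have := Finset.card_le_card hsub
      rwa [Finset.card_pair (hne α hαw)] at this
  rw [hHc] at hcount
  have h1 : W.roots.toFinset.card ≤ Multiset.card W.roots := Multiset.toFinset_card_le _
  have h2 : Multiset.card W.roots ≤ W.natDegree := W.card_roots'
  have h3 : W.roots.toFinset.card = Multiset.card W.roots := by omega
  have h4 : W.Splits := splits_iff_card_roots.2 (by omega)
  have h5 : W.Separable :=
    (nodup_roots_iff_of_splits hWm.ne_zero h4).1 (Multiset.toFinset_card_eq_card_iff_nodup.1 h3)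
  rw [hW, ← e1, separable_map] at h5
  exact h5

theorem nt (hF : St_FLIP) : St_NT := by
  classical
  intro I _ q h R N hN hq hm hd hR huni hirr0 hflip
  have hq' : ∀ i, q i ≠ 0 := fun i => (hq i).ne'
  have hirr : ∀ i, Irreducible ((h i).map (Int.castRingHom ℚ)) := by
    intro i
    obtain ⟨l, hl, h1, h2, h3⟩ := hirr0 i
    have : Fact l.Prime := ⟨hl⟩
    have h4 : Irreducible (h i) :=
      Monic.irreducible_of_irreducible_map (Int.castRingHom (ZMod l)) (h i) (hm i) h3
    exact (IsPrimitive.Int.irreducible_iff_irreducible_map_cast (hm i).isPrimitive).1 h4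
  cases nonempty_fintype I
  have hPm : ((∏ i, weil (q i) (h i)) * R).Monic :=
    (monic_prod_of_monic _ _ fun i _ => weil_monic (q i) (hm i)).mul hR
  obtain ⟨L, _, _, _, j, hj⟩ := exists_field' _ hPm
  have hL : ∀ i, ∀ z : ℂ, aeval z (weil (q i) (h i)) = 0 → ∃ x : L, j x = z := by
    intro i z hz
    apply hj
    rw [map_mul, map_prod, Finset.prod_eq_zero (Finset.mem_univ i) hz, zero_mul]
  have hLR : ∀ z : ℂ, aeval z R = 0 → ∃ x : L, j x = z := by
    intro z hz
    apply hj
    rw [map_mul, hz, mul_zero]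
  have hsp : ∀ i, ((h i).map (algebraMap ℤ L)).Splits := fun i =>
    splits_h (I := Unit) (hq' i) (fun _ => hm i) L j (fun _ => hL i) ()
  have hqd : ∀ i, ∀ θ : L, aeval θ (h i) = 0 → ∃ α : L, α ^ 2 + (q i : L) = θ * α := fun i =>
    quad_L (I := Unit) (hq' i) (fun _ => hm i) L j (fun _ => hL i) ()
  have key : ∀ i, ∀ α : L, aeval α (weil (q i) (h i)) = 0 → Flp q h R i α ∧
      ∀ t : ℕ, 0 < t → (α ^ 2) ^ t ≠ (q i : L) ^ t := by
    intro i α hα
    obtain ⟨l, hl, hl2, hlq, hlR, hfl, hspl⟩ := hflip i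
    obtain ⟨T, t₀, hTc, ht₀, hT, hns, hlu, hsq⟩ := hfl
    obtain ⟨σ, α₀, a1, a2, a3, a4, a5, a6, a7⟩ := hF q h R (luc (q i) N) hm hR L i (hsp i) (hqd i)
      l hl hl2 hlq hlR hspl ⟨T, t₀, ht₀, hT, hns, hlu, hsq⟩
    have hfl0 : Flp q h R i α₀ := ⟨σ, a2, a3, a5, a6, a7⟩
    exact ⟨flp_conj hq' hm L j hL i (hirr i) α₀ a1 hfl0 α hα, fun t ht hαt =>
      no_rou hq' hm L j hL i (hirr i) (huni i) α₀ a1 a3 a4 α hα t ht hαt⟩
  refine ⟨?_, ?_⟩
  · unfold Pool.Agent.W458.MF.Balanced
    intro l hl t ht ν hν c hc hprod i z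
    exact bal hq' hm L j hL hLR key l hl t ht ν hν c hc hprod i z
  · intro i
    refine sep (hq' i) (hm i) (hirr i) L (hsp i) (hqd i) fun α hα => ?_
    obtain ⟨⟨σ, s1, s2, -⟩, -⟩ := key i α hα
    exact s2

end Pool.Agent.W338.MF
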